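import Pool.Agent.helper68.SF.SpecJ

/-!
Project SF, module sj:PHI.
-/

set_option autoImplicit false

namespace SF

open MeasureTheory Set
open scoped ContDiff

/-- a smooth function vanishing outside of `(-1, 1)` is bounded together with its derivative -/
theorem PHI_bd (F : ℝ → ℝ) (hF : ContDiff ℝ ∞ F) (h0 : ∀ r : ℝ, 1 ≤ |r| → F r = 0) :
    ∃ C : ℝ, 0 < C ∧ ∀ r : ℝ, |F r| ≤ C ∧ |deriv F r| ≤ C := by
  have hd : Continuous (deriv F) := hF.continuous_deriv (by exact_mod_cast le_top)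
  obtain ⟨C1, hC1⟩ := (isCompact_Icc (a := (-1 : ℝ)) (b := 1)).exists_bound_of_continuousOn
    hF.continuous.continuousOn
  obtain ⟨C2, hC2⟩ := (isCompact_Icc (a := (-1 : ℝ)) (b := 1)).exists_bound_of_continuousOn
    hd.continuousOn
  refine ⟨|C1| + |C2| + 1, by positivity, fun r => ?_⟩
  by_cases hr : r ∈ Icc (-1 : ℝ) 1
  · have h1 := hC1 r hr
    have h2 := hC2 r hr
    rw [Real.norm_eq_abs] at h1 h2
    constructor
    · linarith [le_abs_self C1, abs_nonneg C2]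
    · linarith [le_abs_self C2, abs_nonneg C1]
  · have hr' : 1 < |r| := by
      by_contra hc
      push Not at hc
      exact hr (abs_le.1 hc)
    have h1 : F r = 0 := h0 r hr'.le
    have hev : F =ᶠ[nhds r] fun _ => 0 := by
      have : {x : ℝ | 1 < |x|} ∈ nhds r := (isOpen_lt continuous_const continuous_abs).mem_nhds hr'
      filter_upwards [this] with x hx
      exact h0 x (le_of_lt hx)
    have h2 : deriv F r = 0 := by
      rw [hev.deriv_eq]
      simp
    rw [h1, h2]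
    simp
    positivity

/-- support of `𝒢` -/
theorem PHI_sup (g : ℝ → ℝ) (hg : Prof g) (r : ℝ) (hr : |r| ≤ 1 / 2 ∨ 1 ≤ |r|) : GG g r = 0 := by
  unfold GG
  rcases eq_or_ne r 0 with h0 | h0
  · subst h0
    simp
  · have hp : 0 < r ^ 2 := by positivity
    rcases hr with hr | hr
    · have h2 : r ^ 2 ≤ 1 / 4 := by
        have := sq_le_sq' (by linarith [abs_nonneg r]) hr
        rw [sq_abs] at this
        linarith
      have : g (1 / r ^ 2) = 0 := by
        apply hg.hi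
        rw [le_div_iff₀ hp]
        linarith
      rw [this]; simp
    · have h2 : 1 ≤ r ^ 2 := by
        rw [← sq_abs]
        nlinarith
      have : g (1 / r ^ 2) = 0 := by
        apply hg.lo
        rw [div_le_one hp]
        exact h2
      rw [this]; simp

/-- smoothness of `𝒢` -/
theorem PHI_sm (g : ℝ → ℝ) (hg : Prof g) : ContDiff ℝ ∞ (GG g) := by
  rw [contDiff_iff_contDiffAt]
  intro r
  by_cases hr : |r| < 1 / 2
  · have hev : GG g =ᶠ[nhds r] fun _ => 0 := by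
      have : {x : ℝ | |x| < 1 / 2} ∈ nhds r :=
        (isOpen_lt continuous_abs continuous_const).mem_nhds hr
      filter_upwards [this] with x hx
      exact PHI_sup g hg x (Or.inl (le_of_lt hx))
    exact contDiffAt_const.congr_of_eventuallyEq hev
  · have h0 : r ≠ 0 := by
      intro h
      apply hr
      rw [h]
      norm_num
    have h1 : ContDiffAt ℝ ∞ (fun r : ℝ => 1 / r ^ 2) r :=
      contDiffAt_const.div (contDiffAt_id.pow 2) (pow_ne_zero 2 h0)
    have h2 : ContDiffAt ℝ ∞ (fun r : ℝ => g (1 / r ^ 2)) r :=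
      (hg.smooth.contDiffAt).comp r h1
    exact h2.div contDiffAt_id h0

/-- the kernel as a function of `r ^ 2` -/
noncomputable def PHI_K (g : ℝ → ℝ) (a : ℝ) : ℝ := deriv (GG g) (√a) / √a

theorem PHI_K_lo (g : ℝ → ℝ) (hg : Prof g) (a : ℝ) (ha : a < 1 / 4) : PHI_K g a = 0 := by
  have h1 : √a < 1 / 2 := by
    rw [Real.sqrt_lt' (by norm_num)]
    linarith
  have hev : GG g =ᶠ[nhds (√a)] fun _ => 0 := by
    have : {x : ℝ | |x| < 1 / 2} ∈ nhds (√a) :=
      (isOpen_lt continuous_abs continuous_const).mem_nhds (by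
        show |√a| < 1 / 2
        rw [abs_of_nonneg (Real.sqrt_nonneg a)]; exact h1)
    filter_upwards [this] with x hx
    exact PHI_sup g hg x (Or.inl (le_of_lt hx))
  unfold PHI_K
  rw [hev.deriv_eq]
  simp

theorem PHI_K_hi (g : ℝ → ℝ) (hg : Prof g) (a : ℝ) (ha : 1 < a) : PHI_K g a = 0 := by
  have h1 : 1 < √a := by
    rw [Real.lt_sqrt (by norm_num)]
    linarith
  have hev : GG g =ᶠ[nhds (√a)] fun _ => 0 := by
    have : {x : ℝ | 1 < |x|} ∈ nhds (√a) :=
      (isOpen_lt continuous_const continuous_abs).mem_nhds (by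
        show 1 < |√a|
        rw [abs_of_nonneg (Real.sqrt_nonneg a)]; exact h1)
    filter_upwards [this] with x hx
    exact PHI_sup g hg x (Or.inr (le_of_lt hx))
  unfold PHI_K
  rw [hev.deriv_eq]
  simp

theorem PHI_K_sm (g : ℝ → ℝ) (hg : Prof g) : ContDiff ℝ ∞ (PHI_K g) := by
  have hd : ContDiff ℝ ∞ (deriv (GG g)) :=
    (contDiff_infty_iff_deriv.1 (PHI_sm g hg)).2
  rw [contDiff_iff_contDiffAt]
  intro a
  by_cases ha : a < 1 / 4
  · have hev : PHI_K g =ᶠ[nhds a] fun _ => 0 := by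
      have : Iio (1 / 4 : ℝ) ∈ nhds a := Iio_mem_nhds ha
      filter_upwards [this] with x hx
      exact PHI_K_lo g hg x hx
    exact contDiffAt_const.congr_of_eventuallyEq hev
  · have h0 : 0 < a := by linarith [not_lt.1 ha]
    have h1 : ContDiffAt ℝ ∞ (fun a : ℝ => √a) a := Real.contDiffAt_sqrt h0.ne'
    have h2 : ContDiffAt ℝ ∞ (fun a : ℝ => deriv (GG g) (√a)) a := (hd.contDiffAt).comp a h1
    exact h2.div h1 (Real.sqrt_pos.2 h0).ne'

theorem PHI_eq (g : ℝ → ℝ) (hg : Prof g) (ρ : ℝ) :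
    Ph g ρ = ρ * ∫ t in (0 : ℝ)..1, PHI_K g (ρ ^ 2 + t ^ 2) := by
  unfold Ph
  congr 1
  rw [intervalIntegral.integral_of_le zero_le_one]
  have key : ∫ t in Ioi (0 : ℝ), PHI_K g (ρ ^ 2 + t ^ 2)
      = ∫ t in Ioc (0 : ℝ) 1, PHI_K g (ρ ^ 2 + t ^ 2) := by
    apply setIntegral_eq_of_subset_of_forall_sdiff_eq_zero measurableSet_Ioi
      Ioc_subset_Ioi_self
    intro t ht
    have ht1 : 1 < t := by
      by_contra hc
      exact ht.2 ⟨ht.1, not_lt.1 hc⟩
    exact PHI_K_hi g hg _ (by nlinarith [sq_nonneg ρ])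
  exact key

theorem PHI_zero (g : ℝ → ℝ) (hg : Prof g) (ρ : ℝ) (hρ : 1 ≤ |ρ|) : Ph g ρ = 0 := by
  rw [PHI_eq g hg ρ]
  have : ∫ t in (0 : ℝ)..1, PHI_K g (ρ ^ 2 + t ^ 2) = 0 := by
    rw [intervalIntegral.integral_of_le zero_le_one]
    apply setIntegral_eq_zero_of_forall_eq_zero
    intro t ht
    apply PHI_K_hi g hg
    have h1 : 1 ≤ ρ ^ 2 := by
      rw [← sq_abs]
      nlinarith
    have h2 : 0 < t ^ 2 := by
      have := ht.1
      positivity
    linarith
  rw [this, mul_zero]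

theorem PHI_Ph_sm (hPI : PI_stmt) (g : ℝ → ℝ) (hg : Prof g) : ContDiff ℝ ∞ (Ph g) := by
  have h1 : ContDiff ℝ ∞ (fun p : ℝ × ℝ => PHI_K g (p.1 ^ 2 + p.2 ^ 2)) :=
    (PHI_K_sm g hg).comp ((contDiff_fst.pow 2).add (contDiff_snd.pow 2))
  have h2 := hPI ℝ univ (fun ρ t => PHI_K g (ρ ^ 2 + t ^ 2)) 0 1 isOpen_univ h1.contDiffOn
  rw [contDiffOn_univ] at h2
  have h3 : Ph g = fun ρ => ρ * ∫ t in (0 : ℝ)..1, PHI_K g (ρ ^ 2 + t ^ 2) := by
    funext ρ
    exact PHI_eq g hg ρ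
  rw [h3]
  exact contDiff_id.mul h2

theorem PHI (hPI : PI_stmt) : PHI_stmt := by
  intro g hg
  have hP := PHI_Ph_sm hPI g hg
  obtain ⟨C1, hC1, hb1⟩ := PHI_bd (GG g) (PHI_sm g hg)
    (fun r hr => PHI_sup g hg r (Or.inr hr))
  obtain ⟨C2, hC2, hb2⟩ := PHI_bd (Ph g) hP (fun r hr => PHI_zero g hg r hr)
  refine ⟨PHI_sm g hg, hP, PHI_sup g hg, ?_, ?_, C1 + C2, by positivity, ?_⟩
  · intro ρ hρ
    exact PHI_zero g hg ρ (le_trans hρ (le_abs_self ρ))
  · unfold Ph
    simp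
  · intro ρ
    obtain ⟨a1, a2⟩ := hb1 ρ
    obtain ⟨a3, a4⟩ := hb2 ρ
    exact ⟨by linarith, by linarith, by linarith, by linarith⟩

end SF
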